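import Pool.Agent.H24.TRN.Cvm

/-!
# Seven points of multiplicity `m` in a box

The class `(8, 7; 4^7)` of `P^1 × P^1` is a pencil of rational curves: nine elementary
transformations carry it to a ruling.
-/

set_option autoImplicit false
set_option maxRecDepth 10000

namespace Pool.B7

open Polynomial Polynomial.Bivariate

/-- No nonzero polynomial of bidegree at most `(B, A)`, `8 B + 7 A < 28 m`, has multiplicity `m` at
the seven points. -/
theorem box7_aux (A B m : ℕ) (h : 8 * B + 7 * A < 28 * m) (f : ℂ[X][Y]) (hf : f ≠ 0)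
    (hdx : dx f ≤ B) (hdy : f.natDegree ≤ A)
    (h0 : Mu f (1 / 5) 1 m)
    (h1 : Mu f (1 / 2) (1 / 3) m)
    (h2 : Mu f 1 2 m)
    (h3 : Mu f (-1) (7 / 26) m)
    (h4 : Mu f 3 (-3) m)
    (h5 : Mu f 2 (-1 / 2) m)
    (h6 : Mu f (4 / 5) (-1) m) : False := by
  have hF : Infinite ℂ := inferInstance
  have dx0 : (dx f : ℤ) ≤ (B : ℤ) := by exact_mod_cast hdx
  have dy0 : (f.natDegree : ℤ) ≤ (A : ℤ) := by exact_mod_cast hdy
  have k0_0 : Mu f (1 / 5) 1 ((m : ℤ)).toNat := by rw [Int.toNat_natCast]; exact h0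
  have k0_1 : Mu f (1 / 2) (1 / 3) ((m : ℤ)).toNat := by rw [Int.toNat_natCast]; exact h1
  have k0_2 : Mu f 1 2 ((m : ℤ)).toNat := by rw [Int.toNat_natCast]; exact h2
  have k0_3 : Mu f (-1) (7 / 26) ((m : ℤ)).toNat := by rw [Int.toNat_natCast]; exact h3
  have k0_4 : Mu f 3 (-3) ((m : ℤ)).toNat := by rw [Int.toNat_natCast]; exact h4
  have k0_5 : Mu f 2 (-1 / 2) ((m : ℤ)).toNat := by rw [Int.toNat_natCast]; exact h5
  have k0_6 : Mu f (4 / 5) (-1) ((m : ℤ)).toNat := by rw [Int.toNat_natCast]; exact h6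
  obtain ⟨g1, n1, dx1, dy1, k1_0, k1_1, r1⟩ := hst hF (a := 1) (b := (1 / 3)) (xa := (1 / 5))
    (xb := (1 / 2)) (xa' := (-1 / 2)) (xb' := 1) (c := (1 / 3)) (by norm_num) (by norm_num) (by norm_num)
    (by norm_num) f hf dx0 dy0 k0_0 k0_1
  have k1_2 := r1 1 2 (-5 / 7) _ (by norm_num) (by norm_num) (by norm_num) k0_2
  have k1_3 := r1 (-1) (7 / 26) (7 / 5) _ (by norm_num) (by norm_num) (by norm_num) k0_3
  have k1_4 := r1 3 (-3) (-4 / 3) _ (by norm_num) (by norm_num) (by norm_num) k0_4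
  have k1_5 := r1 2 (-1 / 2) (-2) _ (by norm_num) (by norm_num) (by norm_num) k0_5
  have k1_6 := r1 (4 / 5) (-1) (-1) _ (by norm_num) (by norm_num) (by norm_num) k0_6
  obtain ⟨g2, n2, dx2, dy2, k2_2, k2_3, r2⟩ := vst hF (a := (-5 / 7)) (b := (7 / 5)) (ya := 2)
    (yb := (7 / 26)) (ya' := (5 / 9)) (yb' := (5 / 2)) (c := (364 / 135)) (by norm_num) (by norm_num) (by norm_num)
    (by norm_num) g1 n1 dx1 dy1 k1_2 k1_3
  have k2_0 := r2 (-1 / 2) 1 0 _ (by norm_num) (by norm_num) (by norm_num) k1_0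
  have k2_1 := r2 1 (1 / 3) (-1) _ (by norm_num) (by norm_num) (by norm_num) k1_1
  have k2_4 := r2 (-4 / 3) (-3) (-14 / 19) _ (by norm_num) (by norm_num) (by norm_num) k1_4
  have k2_5 := r2 (-2) (-1 / 2) (-1 / 3) _ (by norm_num) (by norm_num) (by norm_num) k1_5
  have k2_6 := r2 (-1) (-1) (1 / 4) _ (by norm_num) (by norm_num) (by norm_num) k1_6
  obtain ⟨g3, n3, dx3, dy3, k3_4, k3_5, r3⟩ := hst hF (a := (-14 / 19)) (b := (-1 / 3)) (xa := (-4 / 3))
    (xb := (-2)) (xa' := (6 / 5)) (xb' := (-3 / 2)) (c := (-76 / 135)) (by norm_num) (by norm_num) (by norm_num)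
    (by norm_num) g2 n2 dx2 dy2 k2_4 k2_5
  have k3_0 := r3 (-1 / 2) 0 (-2 / 3) _ (by norm_num) (by norm_num) (by norm_num) k2_0
  have k3_1 := r3 1 (-1) (3 / 5) _ (by norm_num) (by norm_num) (by norm_num) k2_1
  have k3_2 := r3 (-5 / 7) (5 / 9) (-1 / 2) _ (by norm_num) (by norm_num) (by norm_num) k2_2
  have k3_3 := r3 (7 / 5) (5 / 2) 0 _ (by norm_num) (by norm_num) (by norm_num) k2_3
  have k3_6 := r3 (-1) (1 / 4) (-4 / 5) _ (by norm_num) (by norm_num) (by norm_num) k2_6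
  obtain ⟨g4, n4, dx4, dy4, k4_6, k4_0, r4⟩ := vst hF (a := (-4 / 5)) (b := (-2 / 3)) (ya := (1 / 4))
    (yb := 0) (ya' := (1 / 3)) (yb' := (5 / 7)) (c := (35 / 36)) (by norm_num) (by norm_num) (by norm_num)
    (by norm_num) g3 n3 dx3 dy3 k3_6 k3_0
  have k4_1 := r4 (3 / 5) (-1) (-2) _ (by norm_num) (by norm_num) (by norm_num) k3_1
  have k4_2 := r4 (-1 / 2) (5 / 9) (8 / 9) _ (by norm_num) (by norm_num) (by norm_num) k3_2
  have k4_3 := r4 0 (5 / 2) 2 _ (by norm_num) (by norm_num) (by norm_num) k3_3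
  have k4_4 := r4 (6 / 5) (-14 / 19) (-1) _ (by norm_num) (by norm_num) (by norm_num) k3_4
  have k4_5 := r4 (-3 / 2) (-1 / 3) 0 _ (by norm_num) (by norm_num) (by norm_num) k3_5
  obtain ⟨g5, n5, dx5, dy5, k5_1, k5_2, r5⟩ := hst hF (a := (-2)) (b := (8 / 9)) (xa := (3 / 5))
    (xb := (-1 / 2)) (xa' := (-1)) (xb' := (-3)) (c := (-2 / 9)) (by norm_num) (by norm_num) (by norm_num)
    (by norm_num) g4 n4 dx4 dy4 k4_1 k4_2
  have k5_0 := r5 (-2 / 3) (5 / 7) (2 / 3) _ (by norm_num) (by norm_num) (by norm_num) k4_0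
  have k5_3 := r5 0 2 3 _ (by norm_num) (by norm_num) (by norm_num) k4_3
  have k5_4 := r5 (6 / 5) (-1) 0 _ (by norm_num) (by norm_num) (by norm_num) k4_4
  have k5_5 := r5 (-3 / 2) 0 (-3 / 8) _ (by norm_num) (by norm_num) (by norm_num) k4_5
  have k5_6 := r5 (-4 / 5) (1 / 3) (-1 / 2) _ (by norm_num) (by norm_num) (by norm_num) k4_6
  obtain ⟨g6, n6, dx6, dy6, k6_3, k6_0, r6⟩ := vst hF (a := 3) (b := (2 / 3)) (ya := 2)
    (yb := (5 / 7)) (ya' := (2 / 3)) (yb' := (-3)) (c := (-35 / 108)) (by norm_num) (by norm_num) (by norm_num)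
    (by norm_num) g5 n5 dx5 dy5 k5_3 k5_0
  have k6_1 := r6 (-1) (-2) (-3 / 5) _ (by norm_num) (by norm_num) (by norm_num) k5_1
  have k6_2 := r6 (-3) (8 / 9) 1 _ (by norm_num) (by norm_num) (by norm_num) k5_2
  have k6_4 := r6 0 (-1) (-1) _ (by norm_num) (by norm_num) (by norm_num) k5_4
  have k6_5 := r6 (-3 / 8) 0 (-1 / 3) _ (by norm_num) (by norm_num) (by norm_num) k5_5
  have k6_6 := r6 (-1 / 2) (1 / 3) 0 _ (by norm_num) (by norm_num) (by norm_num) k5_6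
  obtain ⟨g7, n7, dx7, dy7, k7_4, k7_5, r7⟩ := hst hF (a := (-1)) (b := (-1 / 3)) (xa := 0)
    (xb := (-3 / 8)) (xa' := (-2)) (xb' := (-1 / 2)) (c := (32 / 15)) (by norm_num) (by norm_num) (by norm_num)
    (by norm_num) g6 n6 dx6 dy6 k6_4 k6_5
  have k7_0 := r7 (2 / 3) (-3) (1 / 2) _ (by norm_num) (by norm_num) (by norm_num) k6_0
  have k7_1 := r7 (-1) (-3 / 5) (-1) _ (by norm_num) (by norm_num) (by norm_num) k6_1
  have k7_2 := r7 (-3) 1 (1 / 3) _ (by norm_num) (by norm_num) (by norm_num) k6_2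
  have k7_3 := r7 3 (2 / 3) 0 _ (by norm_num) (by norm_num) (by norm_num) k6_3
  have k7_6 := r7 (-1 / 2) 0 2 _ (by norm_num) (by norm_num) (by norm_num) k6_6
  obtain ⟨g8, n8, dx8, dy8, k8_0, k8_1, r8⟩ := vst hF (a := (1 / 2)) (b := (-1)) (ya := (-3))
    (yb := (-3 / 5)) (ya' := (1 / 3)) (yb' := (-1 / 3)) (c := (-10)) (by norm_num) (by norm_num) (by norm_num)
    (by norm_num) g7 n7 dx7 dy7 k7_0 k7_1
  have k8_2 := r8 (1 / 3) 1 1 _ (by norm_num) (by norm_num) (by norm_num) k7_2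
  have k8_3 := r8 0 (2 / 3) (-5 / 4) _ (by norm_num) (by norm_num) (by norm_num) k7_3
  have k8_4 := r8 (-2) (-1) (-1 / 2) _ (by norm_num) (by norm_num) (by norm_num) k7_4
  have k8_5 := r8 (-1 / 2) (-1 / 3) (-1) _ (by norm_num) (by norm_num) (by norm_num) k7_5
  have k8_6 := r8 2 0 0 _ (by norm_num) (by norm_num) (by norm_num) k7_6
  obtain ⟨g9, n9, dx9, dy9, k9_2, k9_6, r9⟩ := vst hF (a := (1 / 3)) (b := 2) (ya := 1)
    (yb := 0) (ya' := (-1 / 3)) (yb' := 0) (c := 12) (by norm_num) (by norm_num) (by norm_num)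
    (by norm_num) g8 n8 dx8 dy8 k8_2 k8_6
  have k9_0 := r9 (1 / 2) (1 / 3) (-1) _ (by norm_num) (by norm_num) (by norm_num) k8_0
  have k9_1 := r9 (-1) (-1 / 3) 1 _ (by norm_num) (by norm_num) (by norm_num) k8_1
  have k9_3 := r9 0 (-5 / 4) 3 _ (by norm_num) (by norm_num) (by norm_num) k8_3
  have k9_4 := r9 (-2) (-1 / 2) (1 / 4) _ (by norm_num) (by norm_num) (by norm_num) k8_4
  have k9_5 := r9 (-1 / 2) (-1) (1 / 3) _ (by norm_num) (by norm_num) (by norm_num) k8_5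
  omega

/-- **The box.** Seven points of multiplicity `m` suffice for the exponents of a box with
`8 B + 7 A < 28 m`. -/
theorem box7 (A B m : ℕ) (h : 8 * B + 7 * A < 28 * m) :
    Pool.TRN.Cov m 7 (Finset.range (B + 1) ×ˢ Finset.range (A + 1)) := by
  refine cov_of_mu m 7 A B _ (fun a ha => ?_)
    ![((1 / 5), 1), ((1 / 2), (1 / 3)), (1, 2), ((-1), (7 / 26)), (3, (-3)), (2, (-1 / 2)), ((4 / 5), (-1))]
    (fun i => ?_) (fun f hf hdx hdy _ hM => ?_)
  · rw [Finset.mem_product, Finset.mem_range, Finset.mem_range] at ha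
    omega
  · fin_cases i <;> norm_num
  · exact box7_aux A B m h f hf hdx hdy (hM 0) (hM 1) (hM 2) (hM 3) (hM 4) (hM 5) (hM 6)

end Pool.B7
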