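import Pool.Agent.H24.TRN.Vst
import Pool.Agent.H49.TRN.S1

/-!
# The horizontal elementary transformation; from the conditions of `Cov` to multiplicities
-/

set_option autoImplicit false

namespace Pool.B7

open Polynomial Polynomial.Bivariate

section

variable {F : Type*} [Field F]

lemma dx_swap (f : F[X][Y]) : dx (swap f) = f.natDegree := by
  rw [dx, swap_swap_apply]

/-- The elementary transformation with the roles of the variables exchanged. -/
theorem hst (hF : Infinite F) {B A ma mb : ℤ} {a b xa xb xa' xb' c : F} (hab : a ≠ b)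
    (hx : xa ≠ xb) (hx' : xa' ≠ xb') (hc : c ≠ 0) (f : F[X][Y]) (hf : f ≠ 0)
    (hdx : (dx f : ℤ) ≤ B) (hdy : (f.natDegree : ℤ) ≤ A)
    (hMa : Mu f xa a ma.toNat) (hMb : Mu f xb b mb.toNat) :
    ∃ g : F[X][Y], g ≠ 0 ∧ (dx g : ℤ) ≤ B ∧ (g.natDegree : ℤ) ≤ A + B - ma - mb ∧
      Mu g xa' a (B - ma).toNat ∧ Mu g xb' b (B - mb).toNat ∧
      ∀ x0 y0 x1 : F, ∀ m : ℕ, y0 ≠ a → y0 ≠ b →
        (y0 - b) * (xa - x0) * (x1 - xa') = c * (y0 - a) * (xb - x0) * (x1 - xb') →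
        Mu f x0 y0 m → Mu g x1 y0 m := by
  obtain ⟨g, h1, h2, h3, h4, h5, h6⟩ := vst hF (B := A) (A := B) hab hx hx' hc (swap f)
    ((map_ne_zero_iff _ swap.injective).2 hf) (by rw [dx_swap]; exact hdy) hdx
    ((mu_swap xa a f _).2 hMa) ((mu_swap xb b f _).2 hMb)
  refine ⟨swap g, (map_ne_zero_iff _ swap.injective).2 h1, ?_, h2, (mu_swap a xa' g _).2 h4,
    (mu_swap b xb' g _).2 h5, ?_⟩
  · rw [dx_swap]; exact h3
  · intro x0 y0 x1 m ha hb hrel hm
    exact (mu_swap y0 x1 g m).2 (h6 y0 x0 x1 m ha hb hrel ((mu_swap x0 y0 f m).2 hm))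

end

/-- The polynomial of a family of coefficients. -/
noncomputable def pol (D : Finset (ℕ × ℕ)) (c : ℕ × ℕ → ℂ) : ℂ[X][Y] :=
  ∑ a ∈ D, C (C (c a) * X ^ a.1) * Y ^ a.2

lemma pol_coeff (D : Finset (ℕ × ℕ)) (c : ℕ × ℕ → ℂ) (i j : ℕ) :
    ((pol D c).coeff j).coeff i = if (i, j) ∈ D then c (i, j) else 0 := by
  rw [pol, finsetSum_coeff, finsetSum_coeff]
  have h : ∀ a ∈ D, ((C (C (c a) * X ^ a.1) * Y ^ a.2 : ℂ[X][Y]).coeff j).coeff i =
      if a = (i, j) then c a else 0 := by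
    intro a _
    rw [coeff_C_mul, coeff_X_pow]
    by_cases hj : j = a.2
    · rw [if_pos hj, mul_one, coeff_C_mul, coeff_X_pow]
      by_cases hi : i = a.1
      · rw [if_pos hi, mul_one, if_pos (by rw [hi, hj])]
      · rw [if_neg hi, mul_zero, if_neg (by rintro rfl; exact hi rfl)]
    · rw [if_neg hj, mul_zero, coeff_zero, if_neg (by rintro rfl; exact hj rfl)]
  rw [Finset.sum_congr rfl h, Finset.sum_ite_eq']

/-- The polynomial `binom(a, i)`. -/
noncomputable def bin (v : Fin 2) (i : ℕ) : MvPolynomial (Fin 2) ℂ :=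
  MvPolynomial.C ((i.factorial : ℂ)⁻¹) *
    ∏ k ∈ Finset.range i, (MvPolynomial.X v - MvPolynomial.C (k : ℂ))

lemma bin_totalDegree (v : Fin 2) (i : ℕ) : (bin v i).totalDegree ≤ i := by
  rw [bin]
  refine (MvPolynomial.totalDegree_mul _ _).trans ?_
  rw [MvPolynomial.totalDegree_C, zero_add]
  refine (MvPolynomial.totalDegree_finsetProd _ _).trans ?_
  refine (Finset.sum_le_card_nsmul _ _ 1 fun k _ => ?_).trans (by simp)
  refine (MvPolynomial.totalDegree_sub _ _).trans ?_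
  rw [MvPolynomial.totalDegree_X, MvPolynomial.totalDegree_C]
  simp

lemma bin_eval (v : Fin 2) (i : ℕ) (w : Fin 2 → ℂ) (n : ℕ) (hw : w v = n) :
    MvPolynomial.eval w (bin v i) = (n.choose i : ℂ) := by
  rw [bin, map_mul, MvPolynomial.eval_C, map_prod]
  have h : ∀ k ∈ Finset.range i, MvPolynomial.eval w (MvPolynomial.X v - MvPolynomial.C (k : ℂ)) =
      (n : ℂ) - k := by
    intro k _
    rw [map_sub, MvPolynomial.eval_X, MvPolynomial.eval_C, hw]
  rw [Finset.prod_congr rfl h, ← descPochhammer_eval_eq_prod_range,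
    descPochhammer_eval_eq_descFactorial, Nat.descFactorial_eq_factorial_mul_choose,
    Nat.cast_mul, inv_mul_cancel_left₀ (Nat.cast_ne_zero.2 (Nat.factorial_ne_zero i))]

/-- The conditions of `Cov` give the multiplicity. -/
theorem mu_pol (D : Finset (ℕ × ℕ)) (c : ℕ × ℕ → ℂ) (x0 y0 : ℂ) (hx : x0 ≠ 0) (hy : y0 ≠ 0)
    (m : ℕ) (h : ∀ q : MvPolynomial (Fin 2) ℂ, q.totalDegree < m →
      ∑ a ∈ D, c a * Pool.TRN.ev a q * (x0 ^ a.1 * y0 ^ a.2) = 0) : Mu (pol D c) x0 y0 m := by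
  rw [mu_iff_coeff]
  intro i j hij
  have h1 : ((tr x0 y0 (pol D c)).coeff j).coeff i =
      ∑ a ∈ D, c a * (x0 ^ (a.1 - i) * (a.1.choose i : ℂ)) * (y0 ^ (a.2 - j) *
        (a.2.choose j : ℂ)) := by
    rw [pol, map_sum, finsetSum_coeff, finsetSum_coeff]
    refine Finset.sum_congr rfl fun a _ => ?_
    rw [map_mul, map_pow, tr_C, tr_Y, coeff_C_mul, coeff_X_add_C_pow, mul_comp, C_comp, pow_comp,
      X_comp]
    have h2 : (C (c a) * (X + C x0) ^ a.1 * (C y0 ^ (a.2 - j) * (a.2.choose j : ℂ[X])) : ℂ[X]) =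
        C (c a * (y0 ^ (a.2 - j) * (a.2.choose j : ℂ))) * (X + C x0) ^ a.1 := by
      rw [C_mul, C_mul, C_pow, map_natCast]
      ring
    rw [h2, coeff_C_mul, coeff_X_add_C_pow]
    ring
  rw [h1]
  have h3 := h (bin 0 i * bin 1 j) (lt_of_le_of_lt ((MvPolynomial.totalDegree_mul _ _).trans
    (add_le_add (bin_totalDegree 0 i) (bin_totalDegree 1 j))) hij)
  have h4 : ∑ a ∈ D, c a * Pool.TRN.ev a (bin 0 i * bin 1 j) * (x0 ^ a.1 * y0 ^ a.2) =
      x0 ^ i * y0 ^ j * ∑ a ∈ D, c a * (x0 ^ (a.1 - i) * (a.1.choose i : ℂ)) *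
        (y0 ^ (a.2 - j) * (a.2.choose j : ℂ)) := by
    rw [Finset.mul_sum]
    refine Finset.sum_congr rfl fun a _ => ?_
    rw [Pool.TRN.ev, map_mul, bin_eval 0 i _ a.1 (by simp), bin_eval 1 j _ a.2 (by simp)]
    rcases Nat.lt_or_ge a.1 i with hi | hi
    · rw [Nat.choose_eq_zero_of_lt hi]; simp
    · rcases Nat.lt_or_ge a.2 j with hj | hj
      · rw [Nat.choose_eq_zero_of_lt hj]; simp
      · have e1 : x0 ^ a.1 = x0 ^ i * x0 ^ (a.1 - i) := by rw [← pow_add]; congr 1; omega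
        have e2 : y0 ^ a.2 = y0 ^ j * y0 ^ (a.2 - j) := by rw [← pow_add]; congr 1; omega
        rw [e1, e2]
        ring
  rw [h4] at h3
  rcases mul_eq_zero.1 h3 with h5 | h5
  · exact absurd h5 (mul_ne_zero (pow_ne_zero _ hx) (pow_ne_zero _ hy))
  · exact h5

/-- A region of bounded bidegree is covered if no nonzero polynomial has the multiplicities. -/
theorem cov_of_mu (m s A B : ℕ) (D : Finset (ℕ × ℕ)) (hD : ∀ a ∈ D, a.1 ≤ B ∧ a.2 ≤ A)
    (P : Fin s → ℂ × ℂ) (hP : ∀ i, (P i).1 ≠ 0 ∧ (P i).2 ≠ 0)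
    (h : ∀ f : ℂ[X][Y], f ≠ 0 → dx f ≤ B → f.natDegree ≤ A →
      (∀ i j, (f.coeff j).coeff i ≠ 0 → (i, j) ∈ D) →
      (∀ i, Mu f (P i).1 (P i).2 m) → False) : Pool.TRN.Cov m s D := by
  refine ⟨P, fun c hc => ?_⟩
  by_contra hne
  push Not at hne
  obtain ⟨a, ha, hca⟩ := hne
  have hsupp : ∀ i j, ((pol D c).coeff j).coeff i ≠ 0 → (i, j) ∈ D := by
    intro i j hij
    rw [pol_coeff] at hij
    by_contra h0
    rw [if_neg h0] at hij
    exact hij rfl
  refine h (pol D c) ?_ ?_ ?_ hsupp fun i => mu_pol D c _ _ (hP i).1 (hP i).2 m (hc i)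
  · intro h0
    have h1 := pol_coeff D c a.1 a.2
    rw [h0, coeff_zero, coeff_zero, if_pos ha] at h1
    exact hca h1.symm
  · rw [dx, natDegree_le_iff_coeff_eq_zero]
    intro i hi
    ext j
    rw [coeff_swap, coeff_zero]
    by_contra h0
    have := (hD _ (hsupp i j h0)).1
    simp only at this
    omega
  · rw [natDegree_le_iff_coeff_eq_zero]
    intro j hj
    ext i
    rw [coeff_zero]
    by_contra h0
    have := (hD _ (hsupp i j h0)).2
    simp only at this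
    omega

end Pool.B7
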