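import Mathlib

/-!
# Multiplicities of polynomials in two variables

`F[X][Y]`: the inner variable is `x`, the outer one `y`.  `bl x0 y0` is the chart
`x ↦ x0 + x`, `y ↦ y0 + x y` of the blow-up of `(x0, y0)`, and the multiplicity of `f` at
`(x0, y0)` is at least `m` iff `x ^ m` divides `bl x0 y0 f`.
-/

set_option autoImplicit false

namespace Pool.B7

open Polynomial Polynomial.Bivariate

variable {F : Type*} [Field F]

/-- The translation. -/
noncomputable def tr (x0 y0 : F) : F[X][Y] →ₐ[F] F[X][Y] :=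
  aevalAeval (C (X + C x0)) (Y + C (C y0))

/-- The chart of the blow-up at `(x0, y0)`. -/
noncomputable def bl (x0 y0 : F) : F[X][Y] →ₐ[F] F[X][Y] :=
  aevalAeval (C (X + C x0)) (C (C y0) + C X * Y)

/-- Multiplicity at least `m` at `(x0, y0)`. -/
def Mu (f : F[X][Y]) (x0 y0 : F) (m : ℕ) : Prop := (C X : F[X][Y]) ^ m ∣ bl x0 y0 f

/-- The degree in `x`. -/
noncomputable def dx (f : F[X][Y]) : ℕ := (swap f).natDegree

lemma bl_Y (x0 y0 : F) : bl x0 y0 (Y : F[X][Y]) = C (C y0) + C X * Y := by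
  simp [bl]

lemma bl_CX (x0 y0 : F) : bl x0 y0 (C X : F[X][Y]) = C (X + C x0) := by
  simp [bl]

lemma bl_CC (x0 y0 c : F) : bl x0 y0 (C (C c) : F[X][Y]) = C (C c) := by
  have := (bl x0 y0).commutes c
  simpa using this

lemma bl_C (x0 y0 : F) (p : F[X]) : bl x0 y0 (C p : F[X][Y]) = C (p.comp (X + C x0)) := by
  induction p using Polynomial.induction_on' with
  | add p q hp hq => simp only [map_add, hp, hq, add_comp]
  | monomial n a =>
    rw [← C_mul_X_pow_eq_monomial, C_mul, C_pow, map_mul, map_pow, bl_CC, bl_CX]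
    simp only [mul_comp, C_comp, pow_comp, X_comp, C_mul, C_pow]

lemma tr_Y (x0 y0 : F) : tr x0 y0 (Y : F[X][Y]) = Y + C (C y0) := by
  simp [tr]

lemma tr_CX (x0 y0 : F) : tr x0 y0 (C X : F[X][Y]) = C (X + C x0) := by
  simp [tr]

lemma tr_CC (x0 y0 c : F) : tr x0 y0 (C (C c) : F[X][Y]) = C (C c) := by
  have := (tr x0 y0).commutes c
  simpa using this

lemma tr_C (x0 y0 : F) (p : F[X]) : tr x0 y0 (C p : F[X][Y]) = C (p.comp (X + C x0)) := by
  induction p using Polynomial.induction_on' with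
  | add p q hp hq => simp only [map_add, hp, hq, add_comp]
  | monomial n a =>
    rw [← C_mul_X_pow_eq_monomial, C_mul, C_pow, map_mul, map_pow, tr_CC, tr_CX]
    simp only [mul_comp, C_comp, pow_comp, X_comp, C_mul, C_pow]

/-- The translation and the Taylor expansion. -/
lemma tr_coeff (x0 y0 : F) (f : F[X][Y]) (j : ℕ) :
    (tr x0 y0 f).coeff j = ((taylor (C y0) f).coeff j).comp (X + C x0) := by
  have h : tr x0 y0 f = (taylor (C y0) f).map (compRingHom (X + C x0)) := by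
    induction f using Polynomial.induction_on' with
    | add p q hp hq => rw [map_add, map_add, hp, hq, Polynomial.map_add]
    | monomial n a =>
      rw [← C_mul_X_pow_eq_monomial, map_mul, map_pow, tr_C, tr_Y, taylor_apply]
      simp only [mul_comp, C_comp, pow_comp, X_comp, Polynomial.map_mul, Polynomial.map_pow,
        Polynomial.map_add, map_C, map_X, coe_compRingHom_apply, C_comp]
  rw [h, coeff_map, coe_compRingHom_apply]

/-- The chart is the translation followed by `y ↦ x y`. -/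
lemma bl_eq (x0 y0 : F) (f : F[X][Y]) : bl x0 y0 f = (tr x0 y0 f).comp (C X * Y) := by
  induction f using Polynomial.induction_on' with
  | add p q hp hq => rw [map_add, map_add, hp, hq, add_comp]
  | monomial n a =>
    rw [← C_mul_X_pow_eq_monomial, map_mul, map_pow, map_mul, map_pow, bl_C, bl_Y, tr_C, tr_Y]
    simp only [mul_comp, C_comp, pow_comp, X_comp, add_comp]
    rw [add_comm (C (C y0))]

lemma bl_coeff (x0 y0 : F) (f : F[X][Y]) (j : ℕ) :
    (bl x0 y0 f).coeff j = (tr x0 y0 f).coeff j * X ^ j := by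
  rw [bl_eq, comp_C_mul_X_coeff]

lemma mu_iff (x0 y0 : F) (f : F[X][Y]) (m : ℕ) :
    Mu f x0 y0 m ↔ ∀ j, X ^ (m - j) ∣ (tr x0 y0 f).coeff j := by
  rw [Mu, ← C_pow, C_dvd_iff_dvd_coeff]
  refine forall_congr' fun j => ?_
  rw [bl_coeff]
  rcases le_total j m with h | h
  · have : (X : F[X]) ^ m = X ^ (m - j) * X ^ j := by rw [← pow_add]; congr 1; omega
    rw [this, mul_dvd_mul_iff_right (pow_ne_zero _ X_ne_zero)]
  · rw [Nat.sub_eq_zero_of_le h, pow_zero]
    refine ⟨fun _ => one_dvd _, fun _ => ?_⟩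
    exact Dvd.dvd.mul_left (pow_dvd_pow _ h) _

lemma mu_iff_taylor (x0 y0 : F) (f : F[X][Y]) (m : ℕ) :
    Mu f x0 y0 m ↔ ∀ j, (X - C x0) ^ (m - j) ∣ (taylor (C y0) f).coeff j := by
  rw [mu_iff]
  refine forall_congr' fun j => ?_
  rw [X_sub_C_pow_dvd_iff, tr_coeff]

lemma mu_iff_coeff (x0 y0 : F) (f : F[X][Y]) (m : ℕ) :
    Mu f x0 y0 m ↔ ∀ i j, i + j < m → ((tr x0 y0 f).coeff j).coeff i = 0 := by
  rw [mu_iff]
  constructor
  · intro h i j hij
    exact X_pow_dvd_iff.1 (h j) i (by omega)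
  · intro h j
    exact X_pow_dvd_iff.2 fun i hi => h i j (by omega)

lemma coeff_swap (f : F[X][Y]) (i j : ℕ) : ((swap f).coeff i).coeff j = (f.coeff j).coeff i := by
  induction f using Polynomial.induction_on' with
  | add p q hp hq => simp only [map_add, coeff_add, hp, hq]
  | monomial n a =>
    induction a using Polynomial.induction_on' with
    | add p q hp hq => simp only [map_add, coeff_add, hp, hq]
    | monomial k c =>
      rw [swap_monomial_monomial]
      simp only [coeff_monomial]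
      by_cases h1 : k = i <;> by_cases h2 : n = j <;> simp [h1, h2, coeff_monomial]

lemma swap_tr (x0 y0 : F) (f : F[X][Y]) : swap (tr x0 y0 f) = tr y0 x0 (swap f) := by
  have h : (swap (R := F)).toAlgHom.comp (tr x0 y0) =
      (tr y0 x0).comp (swap (R := F)).toAlgHom := by
    refine algHom_ext' ?_ ?_
    · ext
      simp [tr_CX, tr_Y, swap_X, swap_C_C]
    · simp [tr_CX, tr_Y, swap_Y, swap_C_C]
  exact DFunLike.congr_fun h f

lemma mu_swap (x0 y0 : F) (f : F[X][Y]) (m : ℕ) : Mu (swap f) y0 x0 m ↔ Mu f x0 y0 m := by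
  rw [mu_iff_coeff, mu_iff_coeff]
  constructor
  · intro h i j hij
    have := h j i (by omega)
    rwa [← swap_tr, coeff_swap] at this
  · intro h i j hij
    rw [← swap_tr, coeff_swap]
    exact h j i (by omega)

lemma mu_one (x0 y0 : F) (f : F[X][Y]) (h : evalEval x0 y0 f = 0) : Mu f x0 y0 1 := by
  rw [mu_iff_taylor]
  intro j
  rcases Nat.eq_zero_or_pos j with rfl | hj
  · rw [Nat.sub_zero, pow_one, dvd_iff_isRoot, taylor_coeff_zero]
    exact h
  · have : 1 - j = 0 := by omega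
    rw [this, pow_zero]
    exact one_dvd _

lemma Mu.mul {x0 y0 : F} {f g : F[X][Y]} {m n : ℕ} (hf : Mu f x0 y0 m) (hg : Mu g x0 y0 n) :
    Mu (f * g) x0 y0 (m + n) := by
  rw [Mu, map_mul, pow_add]
  exact mul_dvd_mul hf hg

lemma Mu.pow {x0 y0 : F} {f : F[X][Y]} (hf : Mu f x0 y0 1) (n : ℕ) : Mu (f ^ n) x0 y0 n := by
  rw [Mu, map_pow]
  rw [Mu, pow_one] at hf
  exact pow_dvd_pow_of_dvd hf n

lemma Mu.mono {x0 y0 : F} {f : F[X][Y]} {m n : ℕ} (hf : Mu f x0 y0 m) (h : n ≤ m) :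
    Mu f x0 y0 n := (pow_dvd_pow _ h).trans hf

lemma Mu.mul_left {x0 y0 : F} {f : F[X][Y]} {m : ℕ} (hf : Mu f x0 y0 m) (g : F[X][Y]) :
    Mu (g * f) x0 y0 m := by
  rw [Mu, map_mul]
  exact Dvd.dvd.mul_left hf _

lemma Mu.sum {x0 y0 : F} {ι : Type*} {s : Finset ι} {f : ι → F[X][Y]} {m : ℕ}
    (hf : ∀ i ∈ s, Mu (f i) x0 y0 m) : Mu (∑ i ∈ s, f i) x0 y0 m := by
  rw [Mu, map_sum]
  exact Finset.dvd_sum hf

lemma mu_zero (x0 y0 : F) (f : F[X][Y]) : Mu f x0 y0 0 := by
  rw [Mu, pow_zero]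
  exact one_dvd _

lemma prime_CX : Prime (C X : F[X][Y]) := prime_C_iff.2 prime_X

/-- Division by `(x - x0) ^ k`. -/
lemma mu_div_same {x0 y0 : F} {f : F[X][Y]} {m k : ℕ}
    (h : Mu (C ((X - C x0) ^ k) * f) x0 y0 m) : Mu f x0 y0 (m - k) := by
  rw [Mu, map_mul, bl_C, pow_comp, sub_comp, X_comp, C_comp, add_sub_cancel_right, C_pow] at h
  rw [Mu]
  rcases le_total k m with hk | hk
  · have : (C X : F[X][Y]) ^ m = C X ^ k * C X ^ (m - k) := by rw [← pow_add]; congr 1; omega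
    rw [this] at h
    exact (mul_dvd_mul_iff_left (pow_ne_zero _ prime_CX.ne_zero)).1 h
  · rw [Nat.sub_eq_zero_of_le hk, pow_zero]
    exact one_dvd _

/-- Division by `(x - b) ^ k`, `b ≠ x0`. -/
lemma mu_div_other {x0 y0 b : F} (hb : x0 ≠ b) {f : F[X][Y]} {m k : ℕ}
    (h : Mu (C ((X - C b) ^ k) * f) x0 y0 m) : Mu f x0 y0 m := by
  rw [Mu, map_mul, bl_C, pow_comp, sub_comp, X_comp, C_comp, C_pow] at h
  rw [Mu]
  refine prime_CX.pow_dvd_of_dvd_mul_left m ?_ h
  intro hd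
  have h1 := prime_CX.dvd_of_dvd_pow hd
  have h2 : (X : F[X]) ∣ X + C x0 - C b := by
    have := (C_dvd_iff_dvd_coeff _ _).1 h1 0
    simpa using this
  have h3 : (X : F[X]) ∣ C (x0 - b) := by
    have h4 : (C (x0 - b) : F[X]) = (X + C x0 - C b) - X := by rw [C_sub]; ring
    rw [h4]
    exact dvd_sub h2 dvd_rfl
  rw [X_dvd_iff, coeff_C_zero] at h3
  exact hb (sub_eq_zero.1 h3)

/-- Multiplication by `(x - x0) ^ k`. -/
lemma mu_mul_same {x0 y0 : F} {f : F[X][Y]} {m : ℕ} (k : ℕ) (h : Mu f x0 y0 m) :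
    Mu (C ((X - C x0) ^ k) * f) x0 y0 (k + m) := by
  refine Mu.mul ?_ h
  rw [C_pow]
  exact Mu.pow (mu_one _ _ _ (by simp [evalEval_C])) k

end Pool.B7
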