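import Pool.Agent.H24.TRN.Elt

/-!
# The elementary transformation at two points
-/

set_option autoImplicit false

namespace Pool.B7

open Polynomial Polynomial.Bivariate

variable {F : Type*} [Field F]

/-- Homogeneous substitution. -/
noncomputable def ph (A : ℕ) (U V f : F[X][Y]) : F[X][Y] :=
  ∑ j ∈ Finset.range (A + 1), C (f.coeff j) * U ^ j * V ^ (A - j)

lemma sum_pow_aux (A i : ℕ) (hi : i ≤ A) (U V : F[X][Y]) (r : F[X]) :
    ∑ j ∈ Finset.range (A + 1), C (((X - C r) ^ i).coeff j) * U ^ j * V ^ (A - j) =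
      (U - C r * V) ^ i * V ^ (A - i) := by
  have h1 : ∑ j ∈ Finset.range (A + 1), C (((X - C r) ^ i).coeff j) * U ^ j * V ^ (A - j) =
      ∑ j ∈ Finset.range (i + 1), C (((X - C r) ^ i).coeff j) * U ^ j * V ^ (A - j) := by
    symm
    refine Finset.sum_subset (Finset.range_mono (by omega)) fun j _ hj => ?_
    rw [Finset.mem_range, not_lt] at hj
    have : ((X - C r) ^ i).coeff j = 0 := by
      refine coeff_eq_zero_of_natDegree_lt ?_
      rw [natDegree_pow, natDegree_X_sub_C]
      omega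
    rw [this, C_0, zero_mul, zero_mul]
  have h0 : (U - C r * V) ^ i = ∑ j ∈ Finset.range (i + 1),
      U ^ j * (-(C r * V)) ^ (i - j) * ((i.choose j : ℕ) : F[X][Y]) := by
    rw [sub_eq_add_neg, add_pow]
  rw [h1, h0, Finset.sum_mul]
  refine Finset.sum_congr rfl fun j hj => ?_
  rw [Finset.mem_range] at hj
  have h2 : A - j = (i - j) + (A - i) := by omega
  have h4 : ((X - C r) ^ i).coeff j = (-r) ^ (i - j) * (i.choose j : F[X]) := by
    rw [sub_eq_add_neg, ← C_neg, coeff_X_add_C_pow]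
  rw [h4, h2, pow_add]
  have h3 : (-(C r * V)) ^ (i - j) = C ((-r) ^ (i - j)) * V ^ (i - j) := by
    rw [C_pow, C_neg, ← mul_pow]
    congr 1
    ring
  rw [h3]
  simp only [C_mul, C_pow, map_natCast]
  ring

lemma ph_taylor (A : ℕ) (U V f : F[X][Y]) (hf : f.natDegree ≤ A) (r : F[X]) :
    ph A U V f = ∑ i ∈ Finset.range (A + 1),
      C ((taylor r f).coeff i) * (U - C r * V) ^ i * V ^ (A - i) := by
  have hq : f = ∑ i ∈ Finset.range (A + 1), C ((taylor r f).coeff i) * (X - C r) ^ i := by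
    conv_lhs => rw [← sum_taylor_eq f r]
    refine sum_over_range' _ (fun n => by simp) (A + 1) ?_
    rw [natDegree_taylor]
    omega
  have hc : ∀ j, f.coeff j = ∑ i ∈ Finset.range (A + 1),
      (taylor r f).coeff i * ((X - C r) ^ i).coeff j := by
    intro j
    conv_lhs => rw [hq]
    rw [finsetSum_coeff]
    exact Finset.sum_congr rfl fun i _ => by rw [coeff_C_mul]
  rw [ph]
  have h1 : ∀ j ∈ Finset.range (A + 1), C (f.coeff j) * U ^ j * V ^ (A - j) =
      ∑ i ∈ Finset.range (A + 1), C ((taylor r f).coeff i) *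
        (C (((X - C r) ^ i).coeff j) * U ^ j * V ^ (A - j)) := by
    intro j _
    rw [hc j, map_sum, Finset.sum_mul, Finset.sum_mul]
    refine Finset.sum_congr rfl fun i _ => ?_
    rw [C_mul]
    ring
  rw [Finset.sum_congr rfl h1, Finset.sum_comm]
  refine Finset.sum_congr rfl fun i hi => ?_
  rw [Finset.mem_range] at hi
  rw [← Finset.mul_sum, sum_pow_aux A i (by omega) U V r, mul_assoc]

/-- The linear forms. -/
noncomputable def l1 (b a' : F) : F[X][Y] := C (X - C b) * (Y - C (C a'))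

/-- The linear forms. -/
noncomputable def l2 (a b' c : F) : F[X][Y] := C (C c) * (C (X - C a) * (Y - C (C b')))

lemma natDegree_l1 (b a' : F) : (l1 b a').natDegree ≤ 1 := by
  rw [l1]
  refine natDegree_mul_le.trans ?_
  rw [natDegree_C, natDegree_X_sub_C]

lemma natDegree_l2 (a b' c : F) : (l2 a b' c).natDegree ≤ 1 := by
  rw [l2]
  refine natDegree_mul_le.trans ?_
  rw [natDegree_C, zero_add]
  refine natDegree_mul_le.trans ?_
  rw [natDegree_C, natDegree_X_sub_C]

lemma dx_l1 (b a' : F) : dx (l1 b a') ≤ 1 := by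
  rw [dx, l1, map_mul, C_sub, map_sub, map_sub, swap_X, swap_Y, swap_C_C, swap_C_C, ← C_sub]
  refine natDegree_mul_le.trans ?_
  rw [natDegree_C, natDegree_X_sub_C]

lemma dx_l2 (a b' c : F) : dx (l2 a b' c) ≤ 1 := by
  rw [dx, l2, map_mul, map_mul, C_sub, map_sub, map_sub, swap_X, swap_Y, swap_C_C, swap_C_C,
    swap_C_C, ← C_sub]
  refine natDegree_mul_le.trans ?_
  rw [natDegree_C, zero_add]
  refine natDegree_mul_le.trans ?_
  rw [natDegree_C, natDegree_X_sub_C]

lemma natDegree_coeff_le_dx (f : F[X][Y]) (j : ℕ) : (f.coeff j).natDegree ≤ dx f := by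
  rw [natDegree_le_iff_coeff_eq_zero]
  intro i hi
  rw [← coeff_swap, coeff_eq_zero_of_natDegree_lt hi, coeff_zero]

lemma dx_C (p : F[X]) : dx (C p) = p.natDegree := by
  rw [dx, swap_C, natDegree_map]

lemma exists_eval_ne (hF : Infinite F) {p : F[X]} (hp : p ≠ 0) : ∃ x, p.eval x ≠ 0 := by
  by_contra h
  push Not at h
  exact hp (Polynomial.funext fun x => by rw [h x, eval_zero])

lemma exists_evalEval_ne (hF : Infinite F) {p : F[X][Y]} (hp : p ≠ 0) :
    ∃ x y, evalEval x y p ≠ 0 := by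
  obtain ⟨j, hj⟩ : ∃ j, p.coeff j ≠ 0 := by
    by_contra h
    push Not at h
    exact hp (Polynomial.ext fun j => by rw [h j, coeff_zero])
  obtain ⟨x, hx⟩ := exists_eval_ne hF hj
  have h1 : p.map (evalRingHom x) ≠ 0 := by
    intro h
    have := congrArg (fun q => coeff q j) h
    simp only [coeff_map, coe_evalRingHom, coeff_zero] at this
    exact hx this
  obtain ⟨y, hy⟩ := exists_eval_ne hF h1
  refine ⟨x, y, ?_⟩
  rwa [map_evalRingHom_eval] at hy

lemma evalEval_ph (A : ℕ) (U V f : F[X][Y]) (hf : f.natDegree ≤ A) (x y z : F)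
    (hz : evalEval x y U = z * evalEval x y V) :
    evalEval x y (ph A U V f) = evalEval x y V ^ A * evalEval x z f := by
  rw [ph, evalEval_finsetSum]
  have h1 : evalEval x z f = ∑ j ∈ Finset.range (A + 1), (f.coeff j).eval x * z ^ j := by
    rw [evalEval, eval_eq_sum_range' (Nat.lt_succ_of_le hf), eval_finsetSum]
    refine Finset.sum_congr rfl fun j _ => ?_
    rw [eval_mul, eval_pow, eval_C]
  rw [h1, Finset.mul_sum]
  refine Finset.sum_congr rfl fun j hj => ?_
  rw [Finset.mem_range] at hj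
  rw [evalEval_mul, evalEval_mul, evalEval_pow, evalEval_pow, evalEval_C, hz]
  have h2 : evalEval x y V ^ A = evalEval x y V ^ j * evalEval x y V ^ (A - j) := by
    rw [← pow_add]; congr 1; omega
  rw [h2, mul_pow]
  ring

/-- The elementary transformation. -/
theorem vst (hF : Infinite F) {B A ma mb : ℤ} {a b ya yb ya' yb' c : F} (hab : a ≠ b)
    (hy : ya ≠ yb) (hy' : ya' ≠ yb') (hc : c ≠ 0) (f : F[X][Y]) (hf : f ≠ 0)
    (hdx : (dx f : ℤ) ≤ B) (hdy : (f.natDegree : ℤ) ≤ A)
    (hMa : Mu f a ya ma.toNat) (hMb : Mu f b yb mb.toNat) :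
    ∃ g : F[X][Y], g ≠ 0 ∧ (dx g : ℤ) ≤ B + A - ma - mb ∧ (g.natDegree : ℤ) ≤ A ∧
      Mu g a ya' (A - ma).toNat ∧ Mu g b yb' (A - mb).toNat ∧
      ∀ x0 y0 y1 : F, ∀ m : ℕ, x0 ≠ a → x0 ≠ b →
        (x0 - b) * (ya - y0) * (y1 - ya') = c * (x0 - a) * (yb - y0) * (y1 - yb') →
        Mu f x0 y0 m → Mu g x0 y1 m := by
  obtain ⟨A, rfl⟩ : ∃ n : ℕ, A = n := ⟨A.toNat, by omega⟩
  have hdy' : f.natDegree ≤ A := by exact_mod_cast hdy
  set L1 : F[X][Y] := l1 b ya' with hL1
  set L2 : F[X][Y] := l2 a yb' c with hL2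
  set U : F[X][Y] := C (C ya) * L1 - C (C yb) * L2 with hU
  set V : F[X][Y] := L1 - L2 with hV
  have hUr : ∀ r : F, U - C (C r) * V = C (C (ya - r)) * L1 - C (C (yb - r)) * L2 := by
    intro r
    rw [hU, hV]
    simp only [C_sub]
    ring
  set p : F[X][Y] := ph A U V f with hp
  -- degrees
  have hU1 : U.natDegree ≤ 1 := by
    refine (natDegree_sub_le _ _).trans (max_le ?_ ?_)
    · refine natDegree_mul_le.trans ?_
      rw [natDegree_C, zero_add]; exact natDegree_l1 _ _
    · refine natDegree_mul_le.trans ?_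
      rw [natDegree_C, zero_add]; exact natDegree_l2 _ _ _
  have hV1 : V.natDegree ≤ 1 :=
    (natDegree_sub_le _ _).trans (max_le (natDegree_l1 _ _) (natDegree_l2 _ _ _))
  have hUx : (swap U).natDegree ≤ 1 := by
    rw [hU, map_sub, map_mul, map_mul, swap_C_C, swap_C_C]
    refine (natDegree_sub_le _ _).trans (max_le ?_ ?_)
    · refine natDegree_mul_le.trans ?_
      rw [natDegree_C, zero_add]; exact dx_l1 _ _
    · refine natDegree_mul_le.trans ?_
      rw [natDegree_C, zero_add]; exact dx_l2 _ _ _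
  have hVx : (swap V).natDegree ≤ 1 := by
    rw [hV, map_sub]
    exact (natDegree_sub_le _ _).trans (max_le (dx_l1 _ _) (dx_l2 _ _ _))
  have hpy : p.natDegree ≤ A := by
    refine natDegree_sum_le_of_forall_le _ _ fun j hj => ?_
    rw [Finset.mem_range] at hj
    refine natDegree_mul_le.trans ?_
    have h1 : (C (f.coeff j) * U ^ j).natDegree ≤ j := by
      refine natDegree_mul_le.trans ?_
      rw [natDegree_C, zero_add]
      refine natDegree_pow_le.trans ?_
      nlinarith
    have h2 : (V ^ (A - j)).natDegree ≤ A - j := by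
      refine natDegree_pow_le.trans ?_
      nlinarith
    omega
  have hpx : dx p ≤ dx f + A := by
    rw [dx, hp, ph, map_sum]
    refine natDegree_sum_le_of_forall_le _ _ fun j hj => ?_
    rw [Finset.mem_range] at hj
    rw [map_mul, map_mul, map_pow, map_pow]
    refine natDegree_mul_le.trans ?_
    have h1 : (swap (C (f.coeff j)) * swap U ^ j).natDegree ≤ dx f + j := by
      refine natDegree_mul_le.trans ?_
      have h3 : (swap (C (f.coeff j))).natDegree ≤ dx f := by
        have := dx_C (f.coeff j)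
        rw [dx] at this
        rw [this]
        exact natDegree_coeff_le_dx f j
      have h4 : (swap U ^ j).natDegree ≤ j := by
        refine natDegree_pow_le.trans ?_
        nlinarith
      omega
    have h2 : (swap V ^ (A - j)).natDegree ≤ A - j := by
      refine natDegree_pow_le.trans ?_
      nlinarith
    omega
  -- nonzero
  have hp0 : p ≠ 0 := by
    intro h0
    set D : F[X][Y] := f * (C ((X - C a) * (X - C b)) *
      ((C (C ya) - Y) * C (X - C b) - C (C c) * ((C (C yb) - Y) * C (X - C a)))) with hD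
    have hE : ((C (C ya) - Y) * C (X - C b) - C (C c) * ((C (C yb) - Y) * C (X - C a)) :
        F[X][Y]) ≠ 0 := by
      intro h
      have h1 := congrArg (evalEval a yb) h
      simp only [evalEval_sub, evalEval_mul, evalEval_C, evalEval_X, evalEval_zero, eval_sub,
        eval_X, eval_C, sub_self, mul_zero, sub_zero] at h1
      rcases mul_eq_zero.1 h1 with h2 | h2
      · exact hy (sub_eq_zero.1 h2)
      · exact hab (sub_eq_zero.1 h2)
    have hD0 : D ≠ 0 := by
      refine mul_ne_zero hf (mul_ne_zero ?_ hE)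
      rw [Ne, C_eq_zero]
      exact mul_ne_zero (X_sub_C_ne_zero _) (X_sub_C_ne_zero _)
    obtain ⟨x1, y1, h1⟩ := exists_evalEval_ne hF hD0
    rw [hD] at h1
    simp only [evalEval_sub, evalEval_mul, evalEval_C, evalEval_X, eval_sub, eval_mul,
      eval_X, eval_C] at h1
    set E : F := (ya - y1) * (x1 - b) - c * ((yb - y1) * (x1 - a)) with hEdef
    have hf1 : evalEval x1 y1 f ≠ 0 := left_ne_zero_of_mul h1
    have h2 := right_ne_zero_of_mul h1
    have hE1 : E ≠ 0 := right_ne_zero_of_mul h2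
    have h3 := left_ne_zero_of_mul h2
    have hxa : x1 - a ≠ 0 := left_ne_zero_of_mul h3
    have hxb : x1 - b ≠ 0 := right_ne_zero_of_mul h3
    set w : F := ((ya - y1) * (x1 - b) * ya' - c * ((yb - y1) * (x1 - a)) * yb') / E with hw
    have hw1 : w * E = (ya - y1) * (x1 - b) * ya' - c * ((yb - y1) * (x1 - a)) * yb' := by
      rw [hw, div_mul_cancel₀ _ hE1]
    have hUe : evalEval x1 w U = ya * ((x1 - b) * (w - ya')) - yb * (c * ((x1 - a) * (w - yb'))) := by
      rw [hU, hL1, hL2, l1, l2]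
      simp only [evalEval_sub, evalEval_mul, evalEval_C, evalEval_X, eval_sub, eval_X, eval_C]
    have hVe : evalEval x1 w V = (x1 - b) * (w - ya') - c * ((x1 - a) * (w - yb')) := by
      rw [hV, hL1, hL2, l1, l2]
      simp only [evalEval_sub, evalEval_mul, evalEval_C, evalEval_X, eval_sub, eval_X, eval_C]
    have hrel : evalEval x1 w U = y1 * evalEval x1 w V := by
      rw [hUe, hVe]
      rw [hEdef] at hw1
      linear_combination hw1
    have hV0 : evalEval x1 w V ≠ 0 := by
      have hv : evalEval x1 w V * E = (x1 - a) * (x1 - b) * c * (ya' - yb') * (yb - ya) := by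
        rw [hVe, hEdef]
        rw [hEdef] at hw1
        linear_combination ((x1 - b) - c * (x1 - a)) * hw1
      intro h
      rw [h, zero_mul] at hv
      refine absurd hv.symm ?_
      refine mul_ne_zero (mul_ne_zero (mul_ne_zero (mul_ne_zero hxa hxb) hc) ?_) ?_
      · exact sub_ne_zero.2 hy'
      · exact sub_ne_zero.2 hy.symm
    have h4 := evalEval_ph A U V f hdy' x1 w y1 hrel
    rw [← hp, h0, evalEval_zero] at h4
    exact mul_ne_zero (pow_ne_zero _ hV0) hf1 h4.symm
  -- divisibility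
  have hda : C ((X - C a) ^ ma.toNat) ∣ p := by
    rw [hp, ph_taylor A U V f hdy' (C ya)]
    refine Finset.dvd_sum fun j _ => ?_
    have h1 := (mu_iff_taylor a ya f ma.toNat).1 hMa j
    have h2 : U - C (C ya) * V = C (X - C a) * -(C (C (yb - ya)) * (C (C c) * (Y - C (C yb')))) := by
      rw [hUr, hL1, hL2, l1, l2, sub_self, C_0, C_0]
      ring
    rw [h2, mul_pow, ← C_pow]
    obtain ⟨d, hd⟩ := h1
    rw [hd]
    refine Dvd.dvd.mul_right ?_ _
    refine ⟨C ((X - C a) ^ (j - ma.toNat)) * (C d *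
      (-(C (C (yb - ya)) * (C (C c) * (Y - C (C yb'))))) ^ j), ?_⟩
    have h3 : ((X - C a) ^ ma.toNat * (X - C a) ^ (j - ma.toNat) : F[X]) =
        (X - C a) ^ (ma.toNat - j) * (X - C a) ^ j := by
      rw [← pow_add, ← pow_add]; congr 1; omega
    have h4 : (C ((X - C a) ^ ma.toNat) * C ((X - C a) ^ (j - ma.toNat)) : F[X][Y]) =
        C ((X - C a) ^ (ma.toNat - j)) * C ((X - C a) ^ j) := by
      rw [← C_mul, h3, C_mul]
    rw [C_mul, ← mul_assoc (C ((X - C a) ^ ma.toNat)), h4]
    ring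
  have hdb : C ((X - C b) ^ mb.toNat) ∣ p := by
    rw [hp, ph_taylor A U V f hdy' (C yb)]
    refine Finset.dvd_sum fun j _ => ?_
    have h1 := (mu_iff_taylor b yb f mb.toNat).1 hMb j
    have h2 : U - C (C yb) * V = C (X - C b) * (C (C (ya - yb)) * (Y - C (C ya'))) := by
      rw [hUr, hL1, hL2, l1, l2, sub_self, C_0, C_0]
      ring
    rw [h2, mul_pow, ← C_pow]
    obtain ⟨d, hd⟩ := h1
    rw [hd]
    refine Dvd.dvd.mul_right ?_ _
    refine ⟨C ((X - C b) ^ (j - mb.toNat)) * (C d * (C (C (ya - yb)) * (Y - C (C ya'))) ^ j), ?_⟩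
    have h3 : ((X - C b) ^ mb.toNat * (X - C b) ^ (j - mb.toNat) : F[X]) =
        (X - C b) ^ (mb.toNat - j) * (X - C b) ^ j := by
      rw [← pow_add, ← pow_add]; congr 1; omega
    have h4 : (C ((X - C b) ^ mb.toNat) * C ((X - C b) ^ (j - mb.toNat)) : F[X][Y]) =
        C ((X - C b) ^ (mb.toNat - j)) * C ((X - C b) ^ j) := by
      rw [← C_mul, h3, C_mul]
    rw [C_mul, ← mul_assoc (C ((X - C b) ^ mb.toNat)), h4]
    ring
  have hcop : IsCoprime (C ((X - C a) ^ ma.toNat) : F[X][Y]) (C ((X - C b) ^ mb.toNat)) := by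
    have h1 : IsCoprime (X - C a : F[X]) (X - C b) :=
      isCoprime_X_sub_C_of_isUnit_sub (IsUnit.mk0 _ (sub_ne_zero.2 hab))
    exact (h1.pow (m := ma.toNat) (n := mb.toNat)).map (C : F[X] →+* F[X][Y])
  obtain ⟨g0, hg0⟩ := hcop.mul_dvd hda hdb
  have hg00 : g0 ≠ 0 := by
    rintro rfl
    rw [mul_zero] at hg0
    exact hp0 hg0
  have hna : (C ((X - C a) ^ ma.toNat) : F[X][Y]) ≠ 0 := by
    rw [Ne, C_eq_zero]
    exact pow_ne_zero _ (X_sub_C_ne_zero _)
  have hnb : (C ((X - C b) ^ mb.toNat) : F[X][Y]) ≠ 0 := by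
    rw [Ne, C_eq_zero]
    exact pow_ne_zero _ (X_sub_C_ne_zero _)
  have hg0y : g0.natDegree ≤ A := by
    have h1 := hpy
    rw [hg0, natDegree_mul (mul_ne_zero hna hnb) hg00] at h1
    omega
  have hg0x : dx g0 + ma.toNat + mb.toNat ≤ dx f + A := by
    have h1 := hpx
    rw [hg0, dx, map_mul, map_mul,
      natDegree_mul (mul_ne_zero ((map_ne_zero_iff _ swap.injective).2 hna)
        ((map_ne_zero_iff _ swap.injective).2 hnb)) ((map_ne_zero_iff _ swap.injective).2 hg00),
      natDegree_mul ((map_ne_zero_iff _ swap.injective).2 hna)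
        ((map_ne_zero_iff _ swap.injective).2 hnb)] at h1
    have h2 := dx_C ((X - C a) ^ ma.toNat)
    have h3 := dx_C ((X - C b) ^ mb.toNat)
    rw [natDegree_pow, natDegree_X_sub_C, mul_one] at h2 h3
    rw [dx] at h2 h3
    rw [h2, h3] at h1
    rw [dx]
    omega
  -- multiplicities of g0
  have hg0a : Mu g0 a ya' (A - ma.toNat) := by
    have h1 : Mu p a ya' A := by
      rw [hp, ph]
      refine Mu.sum fun j hj => ?_
      rw [Finset.mem_range] at hj
      have hU0 : Mu U a ya' 1 := mu_one _ _ _ (by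
        rw [hU, hL1, hL2, l1, l2]
        simp only [evalEval_sub, evalEval_mul, evalEval_C, evalEval_X, eval_sub, eval_X, eval_C]
        ring)
      have hV0 : Mu V a ya' 1 := mu_one _ _ _ (by
        rw [hV, hL1, hL2, l1, l2]
        simp only [evalEval_sub, evalEval_mul, evalEval_C, evalEval_X, eval_sub, eval_X, eval_C]
        ring)
      have h2 := ((hU0.pow j).mul_left (C (f.coeff j))).mul (hV0.pow (A - j))
      rwa [Nat.add_sub_cancel' (by omega : j ≤ A)] at h2
    rw [hg0, mul_comm (C ((X - C a) ^ ma.toNat)), mul_assoc] at h1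
    exact mu_div_same (mu_div_other hab h1)
  have hg0b : Mu g0 b yb' (A - mb.toNat) := by
    have h1 : Mu p b yb' A := by
      rw [hp, ph]
      refine Mu.sum fun j hj => ?_
      rw [Finset.mem_range] at hj
      have hU0 : Mu U b yb' 1 := mu_one _ _ _ (by
        rw [hU, hL1, hL2, l1, l2]
        simp only [evalEval_sub, evalEval_mul, evalEval_C, evalEval_X, eval_sub, eval_X, eval_C]
        ring)
      have hV0 : Mu V b yb' 1 := mu_one _ _ _ (by
        rw [hV, hL1, hL2, l1, l2]
        simp only [evalEval_sub, evalEval_mul, evalEval_C, evalEval_X, eval_sub, eval_X, eval_C]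
        ring)
      have h2 := ((hU0.pow j).mul_left (C (f.coeff j))).mul (hV0.pow (A - j))
      rwa [Nat.add_sub_cancel' (by omega : j ≤ A)] at h2
    rw [hg0, mul_assoc] at h1
    exact mu_div_same (mu_div_other hab.symm h1)
  have hg0o : ∀ x0 y0 y1 : F, ∀ m : ℕ, x0 ≠ a → x0 ≠ b →
      (x0 - b) * (ya - y0) * (y1 - ya') = c * (x0 - a) * (yb - y0) * (y1 - yb') →
      Mu f x0 y0 m → Mu g0 x0 y1 m := by
    intro x0 y0 y1 m ha hb hrel hm
    have h1 : Mu p x0 y1 m := by
      rw [hp, ph_taylor A U V f hdy' (C y0)]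
      refine Mu.sum fun j _ => ?_
      have h2 := (mu_iff_taylor x0 y0 f m).1 hm j
      obtain ⟨d, hd⟩ := h2
      rw [hd, C_mul]
      have h3 : Mu (C ((X - C x0) ^ (m - j)) : F[X][Y]) x0 y1 (m - j) := by
        rw [C_pow]
        exact Mu.pow (mu_one _ _ _ (by simp [evalEval_C])) _
      have h4 : Mu (U - C (C y0) * V) x0 y1 1 := by
        refine mu_one _ _ _ ?_
        rw [hUr, hL1, hL2, l1, l2]
        simp only [evalEval_sub, evalEval_mul, evalEval_C, evalEval_X, eval_sub, eval_X, eval_C]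
        linear_combination hrel
      have h5 := (h3.mul (h4.pow j)).mono (show m ≤ m - j + j by omega)
      have h6 := (h5.mul_left (C d)).mul_left (V ^ (A - j))
      have h7 : C ((X - C x0) ^ (m - j)) * C d * (U - C (C y0) * V) ^ j * V ^ (A - j) =
          V ^ (A - j) * (C d * (C ((X - C x0) ^ (m - j)) * (U - C (C y0) * V) ^ j)) := by ring
      rw [h7]
      exact h6
    rw [hg0, mul_assoc] at h1
    exact mu_div_other hb (mu_div_other ha h1)
  -- the result
  have hqa : (C ((X - C a) ^ (-ma).toNat) : F[X][Y]) ≠ 0 := by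
    rw [Ne, C_eq_zero]
    exact pow_ne_zero _ (X_sub_C_ne_zero _)
  have hqb : (C ((X - C b) ^ (-mb).toNat) : F[X][Y]) ≠ 0 := by
    rw [Ne, C_eq_zero]
    exact pow_ne_zero _ (X_sub_C_ne_zero _)
  refine ⟨C ((X - C a) ^ (-ma).toNat) * (C ((X - C b) ^ (-mb).toNat) * g0),
    mul_ne_zero hqa (mul_ne_zero hqb hg00), ?_, ?_, ?_, ?_, ?_⟩
  · rw [dx, map_mul, map_mul]
    have h1 : (swap (C ((X - C a) ^ (-ma).toNat)) * (swap (C ((X - C b) ^ (-mb).toNat)) *
        swap g0)).natDegree ≤ (-ma).toNat + ((-mb).toNat + dx g0) := by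
      refine natDegree_mul_le.trans ?_
      have h2 := dx_C ((X - C a) ^ (-ma).toNat)
      have h3 := dx_C ((X - C b) ^ (-mb).toNat)
      rw [natDegree_pow, natDegree_X_sub_C, mul_one] at h2 h3
      rw [dx] at h2 h3
      rw [h2]
      have h4 : (swap (C ((X - C b) ^ (-mb).toNat)) * swap g0).natDegree ≤
          (-mb).toNat + dx g0 := by
        refine natDegree_mul_le.trans ?_
        rw [h3, dx]
      omega
    omega
  · have h1 : (C ((X - C a) ^ (-ma).toNat) * (C ((X - C b) ^ (-mb).toNat) * g0)).natDegree ≤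
        g0.natDegree := (natDegree_C_mul_le _ _).trans (natDegree_C_mul_le _ _)
    omega
  · have h1 := mu_mul_same (x0 := a) (-ma).toNat (hg0a.mul_left (C ((X - C b) ^ (-mb).toNat)))
    exact h1.mono (by omega)
  · have h1 := mu_mul_same (x0 := b) (-mb).toNat hg0b
    exact (h1.mono (by omega)).mul_left _
  · intro x0 y0 y1 m ha hb hrel hm
    exact ((hg0o x0 y0 y1 m ha hb hrel hm).mul_left _).mul_left _

end Pool.B7
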